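import Pool.Agent.Helper76.TC2.Goals

/-!
# Project TC2 (MP_ccd65d_gt), packet TC2-IB: basic properties of the intrinsic metric
-/

set_option autoImplicit false

open Set

namespace Pool.Agent.Helper57.TC2.IB

open Pool.Agent.Helper50.CT (rv)
open Pool.Agent.Helper76.TC2

theorem rv_neg {n : ℕ} (k : Fin n → ℤ) (x : Fin n → ℝ) : rv (-k) + (rv k + x) = x := by
  ext i
  simp [rv]

theorem t (hCC : S_CC) : S_IB := by
  intro n A d hB hQ
  obtain ⟨h1, h2, h3, h4, h5, _⟩ := hCC n d hB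
  have hne : ∀ x y, {L | Adm n d L x y}.Nonempty := fun x y => ⟨A * d x y, hQ x y⟩
  have hlow : ∀ x y, ∀ L ∈ {L | Adm n d L x y}, d x y ≤ L := by
    intro x y L hL
    exact h4 1 L x y (hL 1 one_pos)
  have hbdd : ∀ x y, BddBelow {L | Adm n d L x y} := fun x y => ⟨d x y, hlow x y⟩
  have hup : ∀ (L L' : ℝ) (x y : Fin n → ℝ), L ≤ L' → Adm n d L x y → Adm n d L' x y := by
    intro L L' x y hL h η hη
    exact h5 η η L L' x y le_rfl hL (h η hη)
  have p1 : ∀ x y, d x y ≤ ii n d x y := fun x y => le_csInf (hne x y) (hlow x y)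
  have p2 : ∀ (L : ℝ) (x y : Fin n → ℝ), Adm n d L x y → ii n d x y ≤ L :=
    fun L x y h => csInf_le (hbdd x y) h
  have p3 : ∀ (τ : ℝ) (x y : Fin n → ℝ), ii n d x y < τ → Adm n d τ x y := by
    intro τ x y h
    obtain ⟨L, hL, hLτ⟩ := exists_lt_of_csInf_lt (hne x y) h
    exact hup L τ x y hLτ.le hL
  refine ⟨p1, p2, p3, ?_⟩
  have hsymm : ∀ (L : ℝ) (x y : Fin n → ℝ), Adm n d L x y → Adm n d L y x :=
    fun L x y h η hη => h2 η L x y (h η hη)
  have hper : ∀ (L : ℝ) (k : Fin n → ℤ) (x y : Fin n → ℝ), Adm n d L x y →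
      Adm n d L (rv k + x) (rv k + y) := fun L k x y h η hη => h3 η L x y k (h η hη)
  refine ⟨?_, ?_, ?_, ?_⟩
  · intro x y
    unfold ii
    congr 1
    ext L
    exact ⟨hsymm L x y, hsymm L y x⟩
  · intro x y z
    apply le_of_forall_pos_le_add
    intro ε hε
    have e1 : Adm n d (ii n d x y + ε / 2) x y := p3 _ x y (by linarith)
    have e2 : Adm n d (ii n d y z + ε / 2) y z := p3 _ y z (by linarith)
    have e3 : Adm n d ((ii n d x y + ε / 2) + (ii n d y z + ε / 2)) x z :=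
      fun η hη => h1 η _ _ x y z (e1 η hη) (e2 η hη)
    have e4 := p2 _ x z e3
    linarith
  · intro k x y
    unfold ii
    congr 1
    ext L
    constructor
    · intro h
      have h6 := hper L (-k) _ _ h
      rw [rv_neg, rv_neg] at h6
      exact h6
    · exact hper L k x y
  · obtain ⟨c, C, hc, hcC⟩ := hB.bilip
    refine ⟨c, |A| * |C|, hc, fun x y => ⟨(hcC x y).1.trans (p1 x y), ?_⟩⟩
    have h0 : 0 ≤ ‖x - y‖ := norm_nonneg _
    have hd0 : 0 ≤ d x y := (by positivity : 0 ≤ c * ‖x - y‖).trans (hcC x y).1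
    have e1 : ii n d x y ≤ A * d x y := p2 _ x y (hQ x y)
    have e2 : A * d x y ≤ |A| * d x y := mul_le_mul_of_nonneg_right (le_abs_self A) hd0
    have e3 : |A| * d x y ≤ |A| * (C * ‖x - y‖) :=
      mul_le_mul_of_nonneg_left (hcC x y).2 (abs_nonneg A)
    have e4 : |A| * (C * ‖x - y‖) ≤ |A| * (|C| * ‖x - y‖) :=
      mul_le_mul_of_nonneg_left (mul_le_mul_of_nonneg_right (le_abs_self C) h0) (abs_nonneg A)
    calc ii n d x y ≤ A * d x y := e1
      _ ≤ |A| * d x y := e2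
      _ ≤ |A| * (C * ‖x - y‖) := e3
      _ ≤ |A| * (|C| * ‖x - y‖) := e4
      _ = |A| * |C| * ‖x - y‖ := by ring

end Pool.Agent.Helper57.TC2.IB
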